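import Mathlib
import Pool.Agent.MP28e671.FinalUniq

/-!
# The exact value of the smallest measure of `{|f| < 1}`, by three equations in three unknowns
-/

open Real MeasureTheory

namespace Pool.Agent.Results.MP_28e671_an.ExactValueUnique

/-- The set of the measures of `E(f) = {x : |f(x)| < 1}`, where `f(x) = ∏ (x - a i)` runs through
the monic real polynomials of degree `n ≥ 1` all of whose roots lie in `[-1, 1]`. -/
def measures : Set ℝ :=
  {y | ∃ n : ℕ, 1 ≤ n ∧ ∃ a : Fin n → ℝ, (∀ i, a i ∈ Set.Icc (-1 : ℝ) 1) ∧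
    y = (volume {x : ℝ | |∏ i, (x - a i)| < 1}).toReal}

/-- The number `μ` of the problem. -/
noncomputable def mu : ℝ := sInf measures

/-- `α(g) = log (2 cosh² g) / (2 g)`. -/
noncomputable def alpha (g : ℝ) : ℝ := log (2 * cosh g ^ 2) / (2 * g)

/-- The admissible triples: `α(g) < tanh g`, and `0 < a < g < c` solve the two equations
`tanh a = tanh g * tanh (a / α(g))` and `tanh c * tanh (c / α(g)) = tanh g`. -/
def Adm (g a c : ℝ) : Prop :=
  0 < a ∧ a < g ∧ g < c ∧ alpha g < tanh g ∧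
    tanh a = tanh g * tanh (a / alpha g) ∧ tanh c * tanh (c / alpha g) = tanh g

/-- The length `2 (cosh² c - cosh² a) / cosh² g`. -/
noncomputable def len (g a c : ℝ) : ℝ := 2 * (cosh c ^ 2 - cosh a ^ 2) / cosh g ^ 2

/-- The function in the third equation. -/
noncomputable def Psi (g y : ℝ) : ℝ :=
  (cosh g ^ 2 - cosh y ^ 2) * (cosh y ^ 2 - y * sinh y * cosh y / (alpha g * g)) /
    (cosh y ^ 2 - cosh g ^ 2 + alpha g * sinh g * cosh g)

/-- There is exactly one admissible triple `(g, a, c)` with `Ψ(g, a) = Ψ(g, c)`, and for this triple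
`μ = 2 (cosh² c - cosh² a) / cosh² g` and `1.83032 < g < 1.83034`; for every `g > 0` with
`α(g) < tanh g` there is exactly one pair `(a, c)` such that `(g, a, c)` is admissible; `μ` is the
minimum of `2 (cosh² c - cosh² a) / cosh² g` over these `g`; and `1.8344304 < μ < 1.8344305`. -/
theorem result :
    (∃! p : ℝ × ℝ × ℝ, Adm p.1 p.2.1 p.2.2 ∧ Psi p.1 p.2.1 = Psi p.1 p.2.2) ∧
    (∀ g a c, Adm g a c → Psi g a = Psi g c → mu = len g a c ∧ 1.83032 < g ∧ g < 1.83034) ∧
    (∀ g : ℝ, 0 < g → alpha g < tanh g → ∃! p : ℝ × ℝ, Adm g p.1 p.2) ∧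
    IsLeast {y | ∃ g a c, Adm g a c ∧ y = len g a c} mu ∧
    1.8344304 < mu ∧ mu < 1.8344305 :=
  Pool.Agent.MP28e671.exact_unique

end Pool.Agent.Results.MP_28e671_an.ExactValueUnique
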